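import Pool.Agent.Helper1.UQ.St2

/-! # Project UQ, module CVT: translation to the notation of helper30 -/

set_option autoImplicit false

open Finset

namespace Pool.Agent.Helper33.UQ

open Classical Pool.Agent.Helper30.RCU Pool.Agent.Helper1.UQ

universe u

section

variable {V : Type u} (G : SimpleGraph V)

/-- ends after the identification of the vertices outside `I` -/
private noncomputable def sI (I : Finset V) : V → Option V := fun v => if v ∈ I then some v else none

private lemma sg_comp (I : Finset V) (v : V) : sg I (some v) = sI I v := by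
  unfold sI
  split_ifs with h
  · exact sg_some_of_mem h
  · exact sg_some_of_notMem h

/-- relabelling to the edge type `G.edgeSet`, notation of helper30 -/
private lemma rel_W (hR : StREL.{u}) (p q : ℝ) (F : Finset G.edgeSet) {W : Type u} (σ : V → W)
    (f : Finset (WE G) → ℝ) :
    ex (cm (φW G) σ) (pW G p) q (Lf G F) f =
      ex (fun e : G.edgeSet => (e : Sym2 V).map σ) (fun _ => p) q F
        (fun ω => f (ω.map Function.Embedding.inl)) := by
  have h := (hR W W G.edgeSet (WE G) Function.Embedding.inl (Function.Embedding.refl W)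
    (fun e : G.edgeSet => (e : Sym2 V).map σ) (cm (φW G) σ) (fun _ => p) (pW G p) q
    (fun e => by simp [cm, φW]) (fun e => rfl) F f).1
  exact h

private lemma conn_W (hR : StREL.{u}) (F : Finset G.edgeSet) {W : Type u} (σ : V → W)
    (x y : W) :
    Conn (cm (φW G) σ) ((F.map Function.Embedding.inl : Finset (WE G)) : Set (WE G)) x y ↔
      Conn (fun e : G.edgeSet => (e : Sym2 V).map σ) (F : Set G.edgeSet) x y :=
  (hR W W G.edgeSet (WE G) Function.Embedding.inl (Function.Embedding.refl W)
    (fun e : G.edgeSet => (e : Sym2 V).map σ) (cm (φW G) σ) (fun _ => 0) (pW G 0) 1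
    (fun e => by simp [cm, φW]) (fun e => rfl) ∅ (fun _ => 0)).2 F x y

/-- the same for the graph with a ghost -/
private lemma rel_G (hR : StREL.{u}) (p t q : ℝ) (F : Finset G.edgeSet) (I : Finset V)
    (f : Finset (GE G) → ℝ) :
    ex (pI G I) (pr G p t) q (F.disjSum ∅) f =
      ex (fun e : G.edgeSet => (e : Sym2 V).map (sI I)) (fun _ => p) q F
        (fun ω => f (ω.map Function.Embedding.inl)) := by
  have h := (hR (Option V) (Option V) G.edgeSet (GE G) Function.Embedding.inl
    (Function.Embedding.refl (Option V))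
    (fun e : G.edgeSet => (e : Sym2 V).map (sI I)) (pI G I) (fun _ => p) (pr G p t) q
    (fun e => by
      simp only [pI, cm, ph, Sum.elim_inl, Function.Embedding.inl_apply, Sym2.map_map]
      have h1 : sg I ∘ some = sI I := funext fun v => sg_comp I v
      rw [h1]
      simp) (fun e => rfl) F f).1
  rw [Finset.disjSum_empty]
  exact h

private lemma conn_G (hR : StREL.{u}) (F : Finset G.edgeSet) (I : Finset V)
    (x y : Option V) :
    Conn (pI G I) ((F.map Function.Embedding.inl : Finset (GE G)) : Set (GE G)) x y ↔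
      Conn (fun e : G.edgeSet => (e : Sym2 V).map (sI I)) (F : Set G.edgeSet) x y :=
  (hR (Option V) (Option V) G.edgeSet (GE G) Function.Embedding.inl
    (Function.Embedding.refl (Option V))
    (fun e : G.edgeSet => (e : Sym2 V).map (sI I)) (pI G I) (fun _ => 0) (pr G 0 0) 1
    (fun e => by
      simp only [pI, cm, ph, Sum.elim_inl, Function.Embedding.inl_apply, Sym2.map_map]
      have h1 : sg I ∘ some = sI I := funext fun v => sg_comp I v
      rw [h1]
      simp) (fun e => rfl) ∅ (fun _ => 0)).2 F x y

private lemma notMem_of_BF (hlf : ∀ v, (G.neighborSet v).Finite) {I : Finset V} {z : V}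
    (hz : z ∈ BF G (te G I)) : z ∉ I := by
  intro hzI
  unfold BF at hz
  obtain ⟨-, e, he, hze⟩ := Finset.mem_filter.mp hz
  exact he ((mem_te hlf).mpr ⟨z, hze, hzI⟩)

/-- the wiring edges are loops after the identification -/
private lemma loops_W (hlf : ∀ v, (G.neighborSet v).Finite) {I : Finset V} {e : WE G}
    (he : e ∈ Rt G (BF G (te G I))) : cm (φW G) (sI I) e = s(none, none) := by
  unfold Rt at he
  obtain ⟨z, hz, rfl⟩ := Finset.mem_map.mp he
  obtain ⟨h1, h2⟩ := Finset.mem_product.mp hz
  have h3 := notMem_of_BF G hlf h1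
  have h4 := notMem_of_BF G hlf h2
  simp [cm, φW, sI, h3, h4]

private lemma pW_nonneg {p : ℝ} (hp : 0 ≤ p) (e : WE G) : 0 ≤ pW G p e := by
  rcases e with e | z
  · exact hp
  · exact zero_le_one

private lemma pW_le_one {p : ℝ} (hp : p ≤ 1) (e : WE G) : pW G p e ≤ 1 := by
  rcases e with e | z
  · exact hp
  · exact le_refl 1

/-- wired, general function -/
private lemma wired_le (hC : StCTR.{u}) (hR : StREL.{u}) (hlf : ∀ v, (G.neighborSet v).Finite)
    {p q : ℝ} (hp : 0 ≤ p) (hp1 : p ≤ 1) (hq : 1 ≤ q) (I : Finset V)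
    {f g : Finset (WE G) → ℝ} (hf0 : ∀ ω, 0 ≤ f ω) (hf : Monotone f) (hfg : ∀ ω, f ω ≤ g ω)
    (hg : ∀ e ∈ Rt G (BF G (te G I)), ∀ ω ω' : Finset (WE G),
      (∀ a, a ∈ ω' ↔ a = e ∨ a ∈ ω) → g ω' = g ω) :
    ex (φW G) (pW G p) q (Lf G (te G I) ∪ Rt G (BF G (te G I))) f ≤
      ex (fun e : G.edgeSet => (e : Sym2 V).map (sI I)) (fun _ => p) q (te G I)
        (fun ω => g (ω.map Function.Embedding.inl)) := by
  have hp' := pW_nonneg G hp
  have hp1' := pW_le_one G hp1
  refine (hC V (Option V) (WE G) (φW G) (sI I) (pW G p) q hp' hp1' hq _ f hf0 hf).trans ?_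
  refine (ex_le hp' hp1' hq _ hfg).trans ?_
  have h1 := ex_loops (φ := cm (φW G) (sI I)) hp' hp1' hq (Lf G (te G I))
    (Rt G (BF G (te G I))) g (fun e he => ⟨none, loops_W G hlf he⟩)
    (fun e he ω => hg e he ω _ fun a => mem_insert_any _)
  rw [rel_W G hR] at h1
  refine le_of_eq (Eq.trans ?_ h1)
  congr 1
  ext a
  rw [mem_union_any, mem_union_any]

end

theorem hCVT (hC : StCTR.{u}) (hR : StREL.{u}) (hK : StRKM.{u}) : StCVT.{u} := by
  intro V G hlf p q hp hp1 hq I e he
  refine ⟨?_, ?_, ?_⟩
  · unfold fI
    have h1 := (hR V V G.edgeSet (WE G) Function.Embedding.inl (Function.Embedding.refl V)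
      (fun e : G.edgeSet => (e : Sym2 V)) (φW G) (fun _ => p) (pW G p) q
      (fun e => by simp [φW]) (fun e => rfl) (te G I)
      (fun ω => if Sum.inl e ∈ ω then 1 else 0)).1
    have h2 := (hR V (Option V) G.edgeSet (GE G) Function.Embedding.inl Function.Embedding.some
      (fun e : G.edgeSet => (e : Sym2 V)) (ph G) (fun _ => p) (pr G p 0) q
      (fun e => by simp [ph]) (fun e => rfl) (te G I) (oe (Sum.inl e))).1
    rw [Finset.disjSum_empty]
    refine h1.trans (Eq.trans ?_ h2.symm)
    congr 1
    funext ω
    unfold oe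
    by_cases h : e ∈ ω
    · simp [h]
    · simp [h]
  · unfold Pool.Agent.Helper1.UQ.wI eD
    rw [Finset.insert_eq_of_mem he, rel_G G hR]
    refine (wired_le G hC hR hlf hp hp1 hq I
      (g := fun ω => if Sum.inl e ∈ ω then (1 : ℝ) else 0) ?_ ?_ (fun ω => le_refl _) ?_).trans
      (le_of_eq ?_)
    · intro ω
      split_ifs
      · exact zero_le_one
      · exact le_refl 0
    · intro ω ω' h
      by_cases h1 : Sum.inl e ∈ ω
      · have h2 : Sum.inl e ∈ ω' := h h1
        simp [h1, h2]
      · by_cases h2 : Sum.inl e ∈ ω'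
        · simp [h1, h2]
        · simp [h1, h2]
    · intro e' he' ω ω' h
      unfold Rt at he'
      obtain ⟨z, hz, rfl⟩ := Finset.mem_map.mp he'
      have h1 : Sum.inl e ∈ ω' ↔ Sum.inl e ∈ ω := by
        rw [h]
        simp
      by_cases h2 : Sum.inl e ∈ ω
      · simp [h2, h1.mpr h2]
      · have h3 : Sum.inl e ∉ ω' := fun h' => h2 (h1.mp h')
        simp [h2, h3]
    · congr 1
      funext ω
      unfold oe
      by_cases h : e ∈ ω
      · simp [h]
      · simp [h]
  · intro x hx z hz
    unfold th eD
    rw [rel_G G hR]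
    have hxs : sI I x = some x := by simp [sI, hx]
    have hzs : sI I z = none := by simp [sI, notMem_of_BF G hlf hz]
    refine (wired_le G hC hR hlf hp hp1 hq I
      (g := ind (cm (φW G) (sI I)) (some x) none) (ind_nonneg x z) (ind_mono x z) ?_ ?_).trans
      (le_of_eq ?_)
    · intro ω
      unfold ind
      split_ifs with h1 h2
      · exact le_refl 1
      · exfalso
        apply h2
        have h3 := (hK V (Option V) (WE G) (φW G) (sI I)).2.2 (ω : Set (WE G)) x z h1
        rwa [hxs, hzs] at h3
      · exact zero_le_one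
      · exact le_refl 0
    · intro e' he' ω ω' h
      have h1 := loops_W G hlf he'
      unfold ind
      have h2 : Conn (cm (φW G) (sI I)) (ω' : Set (WE G)) (some x) none ↔
          Conn (cm (φW G) (sI I)) (ω : Set (WE G)) (some x) none := by
        have h3 : (ω' : Set (WE G)) = insert e' (ω : Set (WE G)) := by
          ext a
          rw [Set.mem_insert_iff, Finset.mem_coe, Finset.mem_coe]
          exact h a
        rw [h3, conn_insert h1]
        constructor
        · rintro (h | ⟨h4, h5⟩ | ⟨h4, h5⟩)
          · exact h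
          · exact h4.trans h5
          · exact h4.trans h5
        · intro h
          exact Or.inl h
      by_cases h : Conn (cm (φW G) (sI I)) (ω : Set (WE G)) (some x) none
      · rw [if_pos h, if_pos (h2.mpr h)]
      · rw [if_neg h, if_neg fun h' => h (h2.mp h')]
    · congr 1
      funext ω
      unfold ind
      have h1 := conn_W G hR ω (sI I) (some x) none
      have h2 := conn_G G hR ω I (some x) none
      by_cases h : Conn (fun e : G.edgeSet => (e : Sym2 V).map (sI I)) (ω : Set G.edgeSet)
        (some x) none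
      · rw [if_pos (h1.mpr h), if_pos (h2.mpr h)]
      · rw [if_neg fun h' => h (h1.mp h'), if_neg fun h' => h (h2.mp h')]

end Pool.Agent.Helper33.UQ
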